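import Pool.Agent.Helper86.Ac.Goals

/-! Packet MIN: it suffices to bound the sum for the minimal orderings. -/

set_option autoImplicit false

namespace Pool.Agent.Helper94.Ac

open Pool.Agent.Helper86.Ac

theorem min : MinStmt := by
  intro α K Λ bt ds hK hbt hds hmain
  have key : ∀ N M : ℕ, ∀ x0 x1 x2 x3 x4 x5 : α, Dis6 x0 x1 x2 x3 x4 x5 →
      bt x0 x1 x2 x3 x4 = N → ds x0 x1 x2 x3 x4 = M → K x0 x1 x2 x3 x4 x5 ≤ Λ := by
    intro N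
    induction N using Nat.strong_induction_on with
    | _ N ihN =>
    intro M
    induction M using Nat.strong_induction_on with
    | _ M ihM =>
    intro x0 x1 x2 x3 x4 x5 hd hN hM
    have hd5 : Dis5 x0 x1 x2 x3 x4 := by
      unfold Dis6 at hd
      unfold Dis5
      tauto
    obtain ⟨b0, b1, b2, b3⟩ := hbt _ _ _ _ _ hd5
    obtain ⟨k0, k1, k2, k3, k4⟩ := hK x0 x1 x2 x3 x4 x5
    have d0 : Dis6 x1 x0 x2 x3 x4 x5 := by unfold Dis6 at hd ⊢; grind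
    have d1 : Dis6 x0 x2 x1 x3 x4 x5 := by unfold Dis6 at hd ⊢; grind
    have d2 : Dis6 x0 x1 x3 x2 x4 x5 := by unfold Dis6 at hd ⊢; grind
    have d3 : Dis6 x0 x1 x2 x4 x3 x5 := by unfold Dis6 at hd ⊢; grind
    rcases hds _ _ _ _ _ hd5 with h0 | h | h | h | h
    · -- `ds = 0`
      have e0 : K x1 x2 x3 x4 x5 x0 = K x0 x1 x2 x3 x4 x5 := by
        rw [(hK x1 x2 x3 x4 x0 x5).2.2.2.2, (hK x1 x2 x3 x0 x4 x5).2.2.2.1,
          (hK x1 x2 x0 x3 x4 x5).2.2.1, (hK x1 x0 x2 x3 x4 x5).2.1, (hK x0 x1 x2 x3 x4 x5).1]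
      have e1 : K x0 x2 x3 x4 x5 x1 = K x0 x1 x2 x3 x4 x5 := by
        rw [(hK x0 x2 x3 x4 x1 x5).2.2.2.2, (hK x0 x2 x3 x1 x4 x5).2.2.2.1,
          (hK x0 x2 x1 x3 x4 x5).2.2.1, (hK x0 x1 x2 x3 x4 x5).2.1]
      have e2 : K x0 x1 x3 x4 x5 x2 = K x0 x1 x2 x3 x4 x5 := by
        rw [(hK x0 x1 x3 x4 x2 x5).2.2.2.2, (hK x0 x1 x3 x2 x4 x5).2.2.2.1,
          (hK x0 x1 x2 x3 x4 x5).2.2.1]
      have e3 : K x0 x1 x2 x4 x5 x3 = K x0 x1 x2 x3 x4 x5 := by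
        rw [(hK x0 x1 x2 x4 x3 x5).2.2.2.2, (hK x0 x1 x2 x3 x4 x5).2.2.2.1]
      have e4 : K x0 x1 x2 x3 x5 x4 = K x0 x1 x2 x3 x4 x5 := (hK x0 x1 x2 x3 x4 x5).2.2.2.2
      have f0 : Dis6 x1 x2 x3 x4 x5 x0 := by unfold Dis6 at hd ⊢; grind
      have f1 : Dis6 x0 x2 x3 x4 x5 x1 := by unfold Dis6 at hd ⊢; grind
      have f2 : Dis6 x0 x1 x3 x4 x5 x2 := by unfold Dis6 at hd ⊢; grind
      have f3 : Dis6 x0 x1 x2 x4 x5 x3 := by unfold Dis6 at hd ⊢; grind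
      have f4 : Dis6 x0 x1 x2 x3 x5 x4 := by unfold Dis6 at hd ⊢; grind
      rcases Nat.lt_or_ge (bt x1 x2 x3 x4 x5) N with g | g0
      · rw [← e0]
        exact ihN _ g _ _ _ _ _ _ _ f0 rfl rfl
      rcases Nat.lt_or_ge (bt x0 x2 x3 x4 x5) N with g | g1
      · rw [← e1]
        exact ihN _ g _ _ _ _ _ _ _ f1 rfl rfl
      rcases Nat.lt_or_ge (bt x0 x1 x3 x4 x5) N with g | g2
      · rw [← e2]
        exact ihN _ g _ _ _ _ _ _ _ f2 rfl rfl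
      rcases Nat.lt_or_ge (bt x0 x1 x2 x4 x5) N with g | g3
      · rw [← e3]
        exact ihN _ g _ _ _ _ _ _ _ f3 rfl rfl
      rcases Nat.lt_or_ge (bt x0 x1 x2 x3 x5) N with g | g4
      · rw [← e4]
        exact ihN _ g _ _ _ _ _ _ _ f4 rfl rfl
      exact hmain _ _ _ _ _ _ hd h0 (by omega) (by omega) (by omega) (by omega) (by omega)
    · rw [← k0]
      exact ihM _ (by omega) _ _ _ _ _ _ d0 (by omega) rfl
    · rw [← k1]
      exact ihM _ (by omega) _ _ _ _ _ _ d1 (by omega) rfl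
    · rw [← k2]
      exact ihM _ (by omega) _ _ _ _ _ _ d2 (by omega) rfl
    · rw [← k3]
      exact ihM _ (by omega) _ _ _ _ _ _ d3 (by omega) rfl
  intro x0 x1 x2 x3 x4 x5 hd
  exact key _ _ _ _ _ _ _ _ hd rfl rfl

end Pool.Agent.Helper94.Ac
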